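import Pool.Agent.U925.DK.Ex

/-!
Davidson and Katsoulis: does piecewise conjugacy of classical multivariable dynamical systems imply
unitary equivalence of the C*-correspondences?  NO, for every number n >= 4 of maps.
-/

namespace Pool.Agent.Results.MP_7f766c_an.PiecewiseNotUnitary

open Pool.Agent.U925.DK

/-- For every n >= 4 there are a compact metrizable space X and two n-tuples of (automatically
proper) continuous self-maps of X which are piecewise conjugate while their C*-correspondences are
not unitarily equivalent. -/
theorem result (n : ℕ) (hn : 4 ≤ n) :
    ∃ (X : Type) (_ : TopologicalSpace X) (_ : CompactSpace X) (_ : T2Space X)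
      (_ : TopologicalSpace.MetrizableSpace X) (σ τ : Fin n → CocompactMap X X),
      PiecewiseConjugate σ τ ∧ ¬ UnitarilyEquivalent σ τ :=
  ⟨Xs, inferInstance, inferInstance, inferInstance, inferInstance, example_n n hn⟩

end Pool.Agent.Results.MP_7f766c_an.PiecewiseNotUnitary
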